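import Mathlib
import Pool.Agent.Work.MP_c51d14_co_helper2.Assembly
import Pool.Agent.Work.MP_c51d14_co_helper2.Ext

/-!
# The linear Tverberg theorem for all polytopes
-/

namespace Pool.Agent.Results.MP_c51d14_co.LinearTverberg

/-- `P` is a polytope: the convex hull of finitely many points. -/
def IsPolytope {n : ℕ} (P : Set (EuclideanSpace ℝ (Fin n))) : Prop :=
  ∃ V : Set (EuclideanSpace ℝ (Fin n)), V.Finite ∧ P = convexHull ℝ V

/-- The dimension of `P`: the dimension of its affine hull. -/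
noncomputable def polyDim {n : ℕ} (P : Set (EuclideanSpace ℝ (Fin n))) : ℕ :=
  Module.finrank ℝ (affineSpan ℝ P).direction

/-- `F` is a (nonempty) face of `P`: it is `P` itself or the intersection of `P` with a supporting
hyperplane. -/
def IsFaceOf {n : ℕ} (P F : Set (EuclideanSpace ℝ (Fin n))) : Prop :=
  F.Nonempty ∧ (F = P ∨ ∃ (l : EuclideanSpace ℝ (Fin n) →ₗ[ℝ] ℝ) (c : ℝ), l ≠ 0 ∧
    (∀ x ∈ P, l x ≤ c) ∧ F = {x | x ∈ P ∧ l x = c})

/-- On `P` the map `f` agrees with a map `g` which is affine on the affine hull of `P` (it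
preserves the affine combinations of any two points of the affine hull). -/
def IsLinearOn {n d : ℕ} (P : Set (EuclideanSpace ℝ (Fin n)))
    (f : EuclideanSpace ℝ (Fin n) → EuclideanSpace ℝ (Fin d)) : Prop :=
  ∃ g : EuclideanSpace ℝ (Fin n) → EuclideanSpace ℝ (Fin d),
    (∀ x ∈ affineSpan ℝ P, ∀ y ∈ affineSpan ℝ P, ∀ t : ℝ,
      g ((1 - t) • x + t • y) = (1 - t) • g x + t • g y) ∧ ∀ x ∈ P, f x = g x

/-- For all `d ≥ 1`, `r ≥ 2`, `m ≥ (d + 1) (r - 1)`, every `m`-dimensional polytope `P` and every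
linear map `f` from `P` to `ℝ^d`, there are pairwise disjoint faces `F 1, …, F r` of `P` whose
images under `f` have a common point. -/
theorem result (d r m n : ℕ) (_hd : 1 ≤ d) (hr : 2 ≤ r) (hm : (d + 1) * (r - 1) ≤ m)
    (P : Set (EuclideanSpace ℝ (Fin n))) (hP : IsPolytope P) (hdim : polyDim P = m)
    (f : EuclideanSpace ℝ (Fin n) → EuclideanSpace ℝ (Fin d)) (hf : IsLinearOn P f) :
    ∃ F : Fin r → Set (EuclideanSpace ℝ (Fin n)),
      (∀ i, IsFaceOf P (F i)) ∧ (∀ i j, i ≠ j → Disjoint (F i) (F j)) ∧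
      (⋂ i, f '' F i).Nonempty := by
  obtain ⟨V, hV, rfl⟩ := hP
  obtain ⟨g, hg, hfg⟩ := hf
  unfold polyDim at hdim
  have hne : (convexHull ℝ V).Nonempty := by
    by_contra h
    rw [Set.not_nonempty_iff_eq_empty] at h
    rw [direction_affineSpan, h, vectorSpan_empty, finrank_bot] at hdim
    have h1 : 0 < (d + 1) * (r - 1) := Nat.mul_pos (by omega) (by omega)
    omega
  obtain ⟨p, hp⟩ := hne
  obtain ⟨h, hh⟩ := Pool.Agent.TP.exists_affine_of_line _ (subset_affineSpan ℝ _ hp) g hg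
  rw [direction_affineSpan] at hdim
  obtain ⟨F, h1, h2, y, hy⟩ := Pool.Agent.TP.final d r m n _hd hr hm V hV hdim h
  refine ⟨F, h1, h2, y, ?_⟩
  rw [Set.mem_iInter] at hy ⊢
  intro i
  obtain ⟨x, hx, hxy⟩ := hy i
  have hxP : x ∈ convexHull ℝ V := by
    rcases (h1 i).2 with h | ⟨l, c, -, -, h⟩
    · rw [h] at hx; exact hx
    · rw [h] at hx; exact hx.1
  exact ⟨x, hx, by rw [hfg x hxP, ← hh x (subset_affineSpan ℝ _ hxP)]; exact hxy⟩

end Pool.Agent.Results.MP_c51d14_co.LinearTverberg
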